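import Mathlib

/-!
# MP_c84e26_co : denser P-position sets for extensions of the AP-avoiding heap game

Answer to Q1: yes.  For a 3-AP-free set `A` containing `0, 1` and no other pair of consecutive
integers, the extension by all moves `{n - 1, n}` with `n ∉ A` has `A` as its set of P-positions.
Taking `A = {0, 1} ∪ ⋃_j (4^(j+1) + 2 S_j)` with `S_j ⊆ [0, 4^j)` a largest 3-AP-free set gives an
extension whose P-position set is within a factor `24` of the maximum possible at every `x`.
-/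

namespace Pool.Agent.Results.MP_c84e26_co.DenserExtension

open Filter

/-- A ruleset: a set of finite nonempty sets of positive integers. -/
def IsRuleset (R : Set (Finset ℕ)) : Prop :=
  ∀ M ∈ R, M.Nonempty ∧ ∀ m ∈ M, 1 ≤ m

/-- The base ruleset `{ {d, 2d} : d ≥ 1 }`. -/
def baseRules : Set (Finset ℕ) := {M | ∃ d : ℕ, 1 ≤ d ∧ M = {d, 2 * d}}

/-- `PPos R n` says `n ∈ A_R`: there is no `M ∈ R` with `max M ≤ n` and
`{n - m : m ∈ M} ⊆ A_R`. -/
def PPos (R : Set (Finset ℕ)) (n : ℕ) : Prop :=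
  ¬ ∃ M ∈ R, ∃ _h : (∀ m ∈ M, 1 ≤ m ∧ m ≤ n), ∀ m, ∀ _hm : m ∈ M, PPos R (n - m)
termination_by n
decreasing_by
  have := _h m _hm
  omega

/-- `A_R(x) = #{i ∈ A_R : i < x}` for real `x`. -/
noncomputable def countP (R : Set (Finset ℕ)) (x : ℝ) : ℕ :=
  Set.ncard {i : ℕ | PPos R i ∧ (i : ℝ) < x}

/-- If `A` satisfies the recursion of a ruleset, it is its set of P-positions. -/
lemma ppos_eq (R : Set (Finset ℕ)) (A : Set ℕ)
    (hA : ∀ n, n ∈ A ↔ ¬ ∃ M ∈ R, (∀ m ∈ M, 1 ≤ m ∧ m ≤ n) ∧ ∀ m ∈ M, n - m ∈ A) :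
    ∀ n, PPos R n ↔ n ∈ A := by
  intro n
  induction n using Nat.strong_induction_on with
  | _ n ih =>
    rw [PPos, hA]
    refine not_congr ?_
    constructor
    · rintro ⟨M, hM, h, h'⟩
      refine ⟨M, hM, h, fun m hm => ?_⟩
      have := h m hm
      exact (ih (n - m) (by omega)).1 (h' m hm)
    · rintro ⟨M, hM, h, h'⟩
      refine ⟨M, hM, h, fun m hm => ?_⟩
      have := h m hm
      exact (ih (n - m) (by omega)).2 (h' m hm)

/-- The chosen optimal 3-AP-free subset of `[0, 4^j)`. -/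
noncomputable def S (j : ℕ) : Finset ℕ := (rothNumberNat_spec (4 ^ j)).choose

lemma S_sub (j : ℕ) : S j ⊆ Finset.range (4 ^ j) := (rothNumberNat_spec (4 ^ j)).choose_spec.1

lemma S_card (j : ℕ) : (S j).card = rothNumberNat (4 ^ j) :=
  (rothNumberNat_spec (4 ^ j)).choose_spec.2.1

lemma S_free (j : ℕ) : ThreeAPFree ((S j : Finset ℕ) : Set ℕ) :=
  (rothNumberNat_spec (4 ^ j)).choose_spec.2.2

/-- The target set. -/
def T : Set ℕ := {n | n = 0 ∨ n = 1 ∨ ∃ j : ℕ, ∃ b ∈ S j, n = 4 ^ (j + 1) + 2 * b}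

lemma block_bounds {j b n : ℕ} (hb : b ∈ S j) (hn : n = 4 ^ (j + 1) + 2 * b) :
    4 * 4 ^ j ≤ n ∧ n < 6 * 4 ^ j := by
  have h1 := Finset.mem_range.1 (S_sub j hb)
  have h2 : 4 ^ (j + 1) = 4 * 4 ^ j := by ring
  omega

lemma pow_lt {k j : ℕ} (h : k < j) : 4 * 4 ^ k ≤ 4 ^ j := by
  have : 4 ^ (k + 1) ≤ 4 ^ j := Nat.pow_le_pow_right (by norm_num) h
  have h2 : 4 ^ (k + 1) = 4 * 4 ^ k := by ring
  omega

lemma pow_pos' (j : ℕ) : 1 ≤ 4 ^ j := Nat.one_le_pow _ _ (by norm_num)

/-- A larger block sits entirely above a smaller one. -/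
lemma block_le {j k b c m n : ℕ} (hb : b ∈ S j) (hn : n = 4 ^ (j + 1) + 2 * b)
    (hc : c ∈ S k) (hm : m = 4 ^ (k + 1) + 2 * c) (h : m ≤ n) : k ≤ j := by
  by_contra hlt
  push Not at hlt
  have h1 := block_bounds hb hn
  have h2 := block_bounds hc hm
  have h3 := pow_lt hlt
  have h4 := pow_pos' j
  omega

lemma T_no_ap {p d : ℕ} (hd : 1 ≤ d) (h0 : p ∈ T) (h1 : p + d ∈ T) (h2 : p + 2 * d ∈ T) :
    False := by
  rcases h2 with h2 | h2 | ⟨j, c, hc, h2⟩
  · omega
  · omega
  have B2 := block_bounds hc h2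
  have Pj := pow_pos' j
  rcases h1 with h1 | h1 | ⟨k, b, hb, h1⟩
  · omega
  · omega
  have B1 := block_bounds hb h1
  have hkj : k ≤ j := block_le hc h2 hb h1 (by omega)
  rcases Nat.lt_or_ge k j with hlt | hge
  · have := pow_lt hlt
    omega
  obtain rfl : k = j := le_antisymm hkj hge
  rcases h0 with h0 | h0 | ⟨l, a, ha, h0⟩
  · omega
  · omega
  have B0 := block_bounds ha h0
  have hlk : l ≤ k := block_le hb h1 ha h0 (by omega)
  rcases Nat.lt_or_ge l k with hlt | hge
  · have := pow_lt hlt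
    omega
  obtain rfl : l = k := le_antisymm hlk hge
  have := S_free l (a := a) (by exact_mod_cast ha) (b := b) (by exact_mod_cast hb)
    (c := c) (by exact_mod_cast hc) (by omega)
  omega

lemma T_even {n : ℕ} (h : n ∈ T) (h2 : 2 ≤ n) : Even n := by
  rcases h with h | h | ⟨j, b, hb, h⟩
  · omega
  · omega
  · subst h
    exact ⟨2 * 4 ^ j + b, by ring⟩

/-- The added rules. -/
def extraRules : Set (Finset ℕ) := {M | ∃ n : ℕ, 2 ≤ n ∧ n ∉ T ∧ M = {n - 1, n}}

lemma extra_ruleset : IsRuleset extraRules := by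
  rintro M ⟨n, hn, -, rfl⟩
  refine ⟨⟨n, by simp⟩, ?_⟩
  intro m hm
  simp only [Finset.mem_insert, Finset.mem_singleton] at hm
  omega

lemma zero_mem : 0 ∈ T := Or.inl rfl
lemma one_mem : 1 ∈ T := Or.inr (Or.inl rfl)

lemma T_recursion (n : ℕ) : n ∈ T ↔ ¬ ∃ M ∈ baseRules ∪ extraRules,
    (∀ m ∈ M, 1 ≤ m ∧ m ≤ n) ∧ ∀ m ∈ M, n - m ∈ T := by
  constructor
  · rintro hn ⟨M, hM, hle, hT⟩
    rcases hM with ⟨d, hd, rfl⟩ | ⟨k, hk, hkT, rfl⟩
    · have h1 := hT d (by simp)
      have h2 := hT (2 * d) (by simp)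
      have h3 := hle (2 * d) (by simp)
      refine T_no_ap (p := n - 2 * d) hd h2 ?_ ?_
      · have : n - 2 * d + d = n - d := by omega
        rwa [this]
      · have : n - 2 * d + 2 * d = n := by omega
        rwa [this]
    · have h1 := hT (k - 1) (by simp)
      have h2 := hT k (by simp)
      have h3 := hle k (by simp)
      rcases Nat.eq_or_lt_of_le h3.2 with h4 | h4
      · subst h4
        exact hkT hn
      · -- n - k and n - k + 1 both in T, with n - k ≥ 1
        have e : n - (k - 1) = (n - k) + 1 := by omega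
        rw [e] at h1
        have ev1 := T_even h1 (by omega)
        rcases Nat.lt_or_ge (n - k) 2 with h5 | h5
        · have h6 : n - k = 1 := by omega
          rw [h6] at h1
          rcases h1 with h1 | h1 | ⟨j, b, hb, h1⟩
          · omega
          · omega
          · have := block_bounds hb h1
            have := pow_pos' j
            omega
        · have ev2 := T_even h2 h5
          rw [Nat.even_add_one] at ev1
          exact ev1 ev2
  · intro h
    by_contra hn
    have h2 : 2 ≤ n := by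
      by_contra hlt
      have : n = 0 ∨ n = 1 := by omega
      rcases this with rfl | rfl
      · exact hn zero_mem
      · exact hn one_mem
    refine h ⟨{n - 1, n}, Or.inr ⟨n, h2, hn, rfl⟩, ?_, ?_⟩
    · intro m hm
      simp only [Finset.mem_insert, Finset.mem_singleton] at hm
      omega
    · intro m hm
      simp only [Finset.mem_insert, Finset.mem_singleton] at hm
      rcases hm with rfl | rfl
      · have : n - (n - 1) = 1 := by omega
        rw [this]
        exact one_mem
      · rw [Nat.sub_self]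
        exact zero_mem

lemma ppos_T (n : ℕ) : PPos (baseRules ∪ extraRules) n ↔ n ∈ T :=
  ppos_eq _ T T_recursion n

lemma fin_lt (R : Set (Finset ℕ)) (x : ℝ) : {i : ℕ | PPos R i ∧ (i : ℝ) < x}.Finite := by
  refine (Set.finite_lt_nat (⌈x⌉₊)).subset ?_
  rintro i ⟨-, hi⟩
  exact Nat.lt_ceil.2 hi

lemma count_mono (R : Set (Finset ℕ)) {x y : ℝ} (h : x ≤ y) : countP R x ≤ countP R y :=
  Set.ncard_le_ncard (fun _ hi => ⟨hi.1, hi.2.trans_le h⟩) (fin_lt R y)

lemma roth_mul (k m : ℕ) : rothNumberNat (k * m) ≤ k * rothNumberNat m := by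
  induction k with
  | zero => simp
  | succ k ih =>
    have := rothNumberNat_add_le (k * m) m
    calc rothNumberNat ((k + 1) * m) = rothNumberNat (k * m + m) := by ring_nf
      _ ≤ rothNumberNat (k * m) + rothNumberNat m := this
      _ ≤ (k + 1) * rothNumberNat m := by nlinarith

lemma block_count (j : ℕ) (x : ℕ) (hx : 6 * 4 ^ j ≤ x) :
    rothNumberNat (4 ^ j) ≤ countP (baseRules ∪ extraRules) (x : ℝ) := by
  classical
  rw [← S_card j]
  have hinj : Function.Injective (fun b : ℕ => 4 ^ (j + 1) + 2 * b) := by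
    intro a b h
    simp only at h
    omega
  rw [← Finset.card_image_of_injective _ hinj, ← Set.ncard_coe_finset]
  refine Set.ncard_le_ncard ?_ (fin_lt _ _)
  intro n hn
  simp only [Finset.coe_image, Set.mem_image, Finset.mem_coe] at hn
  obtain ⟨b, hb, rfl⟩ := hn
  have hB := block_bounds hb rfl
  refine ⟨(ppos_T _).2 (Or.inr (Or.inr ⟨j, b, hb, rfl⟩)), ?_⟩
  exact_mod_cast (lt_of_lt_of_le hB.2 hx)

lemma count_lower (x : ℕ) :
    rothNumberNat x ≤ 24 * countP (baseRules ∪ extraRules) (x : ℝ) := by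
  rcases Nat.lt_or_ge x 6 with h | h
  · rcases Nat.eq_zero_or_pos x with h0 | h0
    · subst h0
      simp
    · have h1 : rothNumberNat x ≤ x := rothNumberNat_le x
      have h2 : 1 ≤ countP (baseRules ∪ extraRules) (x : ℝ) := by
        have : 0 < countP (baseRules ∪ extraRules) (x : ℝ) := by
          unfold countP
          rw [Set.ncard_pos (fin_lt _ _)]
          exact ⟨0, (ppos_T 0).2 zero_mem, by exact_mod_cast h0⟩
        omega
      omega
  · set j := Nat.log 4 (x / 6) with hj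
    have hx6 : x / 6 ≠ 0 := by omega
    have h1 : 4 ^ j ≤ x / 6 := Nat.pow_log_le_self 4 hx6
    have h2 : x / 6 < 4 ^ (j + 1) := Nat.lt_pow_succ_log_self (by norm_num) _
    have h3 : 4 ^ (j + 1) = 4 * 4 ^ j := by ring
    have h4 : x ≤ 24 * 4 ^ j := by omega
    calc rothNumberNat x ≤ rothNumberNat (24 * 4 ^ j) := rothNumberNat.mono h4
      _ ≤ 24 * rothNumberNat (4 ^ j) := roth_mul _ _
      _ ≤ 24 * countP (baseRules ∪ extraRules) (x : ℝ) :=
        Nat.mul_le_mul_left _ (block_count j x (by omega))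

lemma tendsto_aux {α : ℝ} (hα : α < 1) :
    Tendsto (fun x : ℝ => (1 / 48 : ℝ) * Real.exp ((1 - α) * Real.log x - 4 * √(Real.log x)))
      atTop atTop := by
  have h1 : Tendsto (fun L : ℝ => (1 - α) * L - 4 * √L) atTop atTop := by
    have hs : Tendsto (fun L : ℝ => √L) atTop atTop := Real.tendsto_sqrt_atTop
    have h2 : Tendsto (fun L : ℝ => (1 - α) * √L - 4) atTop atTop :=
      tendsto_atTop_add_const_right _ _ (hs.const_mul_atTop (by linarith))
    have h3 := hs.atTop_mul_atTop₀ h2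
    refine h3.congr' ?_
    filter_upwards [eventually_ge_atTop (0 : ℝ)] with L hL
    have := Real.mul_self_sqrt hL
    linear_combination (1 - α) * this
  exact (Real.tendsto_exp_atTop.comp (h1.comp Real.tendsto_log_atTop)).const_mul_atTop
    (by norm_num)

lemma count_real {α x : ℝ} (hx : 2 ≤ x) :
    (1 / 48 : ℝ) * Real.exp ((1 - α) * Real.log x - 4 * √(Real.log x)) ≤
      (countP (baseRules ∪ extraRules) x : ℝ) / x ^ α := by
  have hx0 : 0 < x := by linarith
  rw [le_div_iff₀ (Real.rpow_pos_of_pos hx0 α), Real.rpow_def_of_pos hx0]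
  have e1 : (1 / 48 : ℝ) * Real.exp ((1 - α) * Real.log x - 4 * √(Real.log x)) *
      Real.exp (Real.log x * α) = (1 / 24) * ((x / 2) * Real.exp (-4 * √(Real.log x))) := by
    rw [mul_assoc, ← Real.exp_add]
    have : (1 - α) * Real.log x - 4 * √(Real.log x) + Real.log x * α
        = Real.log x + (-4 * √(Real.log x)) := by ring
    rw [this, Real.exp_add, Real.exp_log hx0]
    ring
  rw [e1]
  set n := ⌊x⌋₊ with hn
  have hnx : (n : ℝ) ≤ x := Nat.floor_le hx0.le
  have hxn : x < n + 1 := Nat.lt_floor_add_one x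
  have hn2 : 2 ≤ n := Nat.le_floor (by exact_mod_cast hx)
  have hn2' : (2 : ℝ) ≤ n := by exact_mod_cast hn2
  have h1 := @Behrend.roth_lower_bound n
  have h2 : (rothNumberNat n : ℝ) ≤ 24 * (countP (baseRules ∪ extraRules) (n : ℝ) : ℝ) := by
    exact_mod_cast count_lower n
  have h3 : (countP (baseRules ∪ extraRules) (n : ℝ) : ℝ) ≤
      (countP (baseRules ∪ extraRules) x : ℝ) := by
    exact_mod_cast count_mono _ hnx
  have h4 : Real.exp (-4 * √(Real.log x)) ≤ Real.exp (-4 * √(Real.log n)) := by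
    apply Real.exp_le_exp.2
    have : √(Real.log n) ≤ √(Real.log x) :=
      Real.sqrt_le_sqrt (Real.log_le_log (by linarith) hnx)
    linarith
  have h5 : (x / 2) * Real.exp (-4 * √(Real.log x)) ≤ n * Real.exp (-4 * √(Real.log n)) :=
    mul_le_mul (by linarith) h4 (Real.exp_pos _).le (by linarith)
  linarith

/-- **Answer to Q1: yes.**  There is a set `M'` of finite nonempty sets of positive integers such
that for the extension `R = M_0 ∪ M'` one has `limsup A_R(x) / x^(log 2 / log 3) = ∞`; moreover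
`A_R(x) / x^α → ∞` for every real `α < 1`, and `r_3(x) ≤ 24 A_R(x)` for every natural `x`, where
`r_3(x) = rothNumberNat x` is the largest size of a 3-AP-free subset of `{0, …, x - 1}`. -/
theorem result : ∃ M' : Set (Finset ℕ), IsRuleset M' ∧
    limsup (fun x : ℝ => (((countP (baseRules ∪ M') x : ℝ) /
      x ^ (Real.log 2 / Real.log 3) : ℝ) : EReal)) atTop = ⊤ ∧
    (∀ α : ℝ, α < 1 →
      Tendsto (fun x : ℝ => (countP (baseRules ∪ M') x : ℝ) / x ^ α) atTop atTop) ∧
    ∀ x : ℕ, rothNumberNat x ≤ 24 * countP (baseRules ∪ M') (x : ℝ) := by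
  have key : ∀ α : ℝ, α < 1 → Tendsto (fun x : ℝ =>
      (countP (baseRules ∪ extraRules) x : ℝ) / x ^ α) atTop atTop := by
    intro α hα
    refine tendsto_atTop_mono' _ ?_ (tendsto_aux hα)
    filter_upwards [eventually_ge_atTop (2 : ℝ)] with x hx
    exact count_real hx
  refine ⟨extraRules, extra_ruleset, ?_, key, count_lower⟩
  have hlog : Real.log 2 / Real.log 3 < 1 := by
    rw [div_lt_one (Real.log_pos (by norm_num))]
    exact Real.log_lt_log (by norm_num) (by norm_num)
  have h := key _ hlog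
  exact (EReal.tendsto_coe_nhds_top_iff.2 h).limsup_eq

end Pool.Agent.Results.MP_c84e26_co.DenserExtension
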